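import Pool.Agent.Helper5.GB.St

set_option autoImplicit false

open Set Filter Topology

namespace Pool.Agent.Helper51.GB

open Pool.Agent.Helper5.GB

theorem tendsto_flat (a K κ : ℝ) (ha : 0 < a) (hK : 0 < K) (hκ : 0 < κ) (n : ℕ) :
    Tendsto (fun t : ℝ => Real.exp (-(a / (K * t) ^ κ)) / t ^ n) (𝓝[>] 0) (𝓝 0) := by
  have h1 : Tendsto (fun t : ℝ => (K * t) ^ κ) (𝓝[>] 0) (𝓝[>] 0) := by
    apply tendsto_nhdsWithin_iff.2
    constructor
    · have h2 : Tendsto (fun t : ℝ => (K * t) ^ κ) (𝓝 0) (𝓝 ((K * 0) ^ κ)) := by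
        have h3 : ContinuousAt (fun t : ℝ => (K * t) ^ κ) 0 :=
          (continuousAt_const.mul continuousAt_id).rpow_const (Or.inr hκ.le)
        exact h3
      rw [mul_zero, Real.zero_rpow hκ.ne'] at h2
      exact h2.mono_left nhdsWithin_le_nhds
    · filter_upwards [self_mem_nhdsWithin] with t ht
      have ht' : (0 : ℝ) < t := ht
      exact Real.rpow_pos_of_pos (by positivity) κ
  have h2 : Tendsto (fun t : ℝ => a / (K * t) ^ κ) (𝓝[>] 0) atTop := by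
    have h3 := (tendsto_inv_nhdsGT_zero.comp h1).const_mul_atTop ha
    refine h3.congr (fun t => ?_)
    simp only [Function.comp, div_eq_mul_inv]
  have h3 := (tendsto_rpow_mul_exp_neg_mul_atTop_nhds_zero ((n : ℝ) / κ) 1 one_pos).comp h2
  have h4 := h3.const_mul (K ^ n * (a⁻¹) ^ ((n : ℝ) / κ))
  rw [mul_zero] at h4
  refine h4.congr' ?_
  filter_upwards [self_mem_nhdsWithin] with t ht
  have ht' : (0 : ℝ) < t := ht
  have hKt : 0 < K * t := by positivity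
  simp only [Function.comp]
  have e1 : (a / (K * t) ^ κ) ^ ((n : ℝ) / κ) = a ^ ((n : ℝ) / κ) * ((K * t) ^ n)⁻¹ := by
    rw [Real.div_rpow ha.le (Real.rpow_pos_of_pos hKt κ).le, ← Real.rpow_mul hKt.le,
      mul_div_cancel₀ _ hκ.ne', Real.rpow_natCast, div_eq_mul_inv]
  have e2 : (a⁻¹) ^ ((n : ℝ) / κ) * a ^ ((n : ℝ) / κ) = 1 := by
    rw [← Real.mul_rpow (inv_nonneg.2 ha.le) ha.le, inv_mul_cancel₀ ha.ne', Real.one_rpow]
  rw [e1, neg_mul, one_mul, mul_pow, mul_inv]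
  calc K ^ n * a⁻¹ ^ ((n : ℝ) / κ) * (a ^ ((n : ℝ) / κ) * ((K ^ n)⁻¹ * (t ^ n)⁻¹) *
        Real.exp (-(a / (K * t) ^ κ)))
      = (a⁻¹ ^ ((n : ℝ) / κ) * a ^ ((n : ℝ) / κ)) * (K ^ n * (K ^ n)⁻¹) * (t ^ n)⁻¹ *
        Real.exp (-(a / (K * t) ^ κ)) := by ring
    _ = Real.exp (-(a / (K * t) ^ κ)) / t ^ n := by
        rw [e2, mul_inv_cancel₀ (by positivity)]
        ring

theorem hFlt : StFlt := by
  intro f a K κ ha hK hκ hf hle
  by_contra hcon
  obtain ⟨n, g, hg, hg0, hfg⟩ := hf.exists_eventuallyEq_pow_smul_nonzero_iff.2 hcon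
  have h1 : Tendsto (fun t : ℝ => |g t|) (𝓝[>] 0) (𝓝 |g 0|) :=
    (hg.continuousAt.abs.tendsto).mono_left nhdsWithin_le_nhds
  have h2 := tendsto_flat a K κ ha hK hκ n
  have h3 : |g 0| ≤ 0 := by
    refine le_of_tendsto_of_tendsto h1 h2 ?_
    filter_upwards [hle, hfg.filter_mono nhdsWithin_le_nhds, self_mem_nhdsWithin] with t h4 h5 ht
    have ht' : (0 : ℝ) < t := ht
    rw [h5, sub_zero, smul_eq_mul, abs_mul, abs_of_pos (pow_pos ht' n)] at h4
    rw [le_div_iff₀ (pow_pos ht' n)]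
    linarith [mul_comm (t ^ n) |g t|]
  exact hg0 (abs_eq_zero.1 (le_antisymm h3 (abs_nonneg _)))

end Pool.Agent.Helper51.GB
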